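import Pool.Agent.H5R2.NBA.ALL

/-!
# Absolutely continuous states of the Anderson model have zero asymptotic velocity

`Δ_ω = -Δ + ω` on `ℤ^d`, `ω_j` iid with any law which is not a point mass, for instance
`P(ω_j = ±1) = 1/2`. States in the absolutely continuous subspace of `Δ_ω` (if there are any) have
asymptotic velocity zero: the time average of `e^{isΔ_ω} v e^{-isΔ_ω}` (`v = i[Δ_ω, x_i]`, the
velocity) tends to zero on them, in mean square.
-/

set_option autoImplicit false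

open MeasureTheory Filter Topology
open scoped BigOperators ENNReal NNReal InnerProductSpace

namespace Pool.Agent.Results.MP_d0f69c_mp.ACStatesZeroVelocity

/-- `ℓ²(ℤ^d)` -/
abbrev L2 (d : ℕ) : Type := lp (fun _ : Fin d → ℤ => ℂ) 2

/-- the operator of the problem, `(Δ_ω u)(j) = -∑_{|n|=1} (u(j+n) - u(j)) + ω_j u(j)` (the unit
vectors `n` are `± e_i`) -/
noncomputable def H {d : ℕ} (ω : (Fin d → ℤ) → ℝ) (u : (Fin d → ℤ) → ℂ) (j : Fin d → ℤ) : ℂ :=
  -(∑ i : Fin d, ((u (j + Pi.single i 1) - u j) + (u (j - Pi.single i 1) - u j))) + (ω j : ℂ) * u j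

/-- `U t = e^{-itΔ_ω}`: norm preserving maps of `ℓ²(ℤ^d)` with `U 0 = 1` and `i ∂_t (U_t u) = Δ_ω U_t u`
at every site -/
structure IsPropagator {d : ℕ} (ω : (Fin d → ℤ) → ℝ) (U : ℝ → L2 d → L2 d) : Prop where
  zero : ∀ u, U 0 u = u
  norm : ∀ t u, ‖U t u‖ = ‖u‖
  schrodinger : ∀ u t j, HasDerivAt (fun s => (U s u) j)
    (-Complex.I * H ω (fun k => (U t u) k) j) t

/-- `v` is the velocity operator `i[Δ_ω, x_i]`, `(v u)(j) = -i (u(j+e_i) - u(j-e_i))` -/
def IsVelocity {d : ℕ} (i : Fin d) (v : L2 d → L2 d) : Prop :=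
  ∀ u j, (v u) j = -Complex.I * (u (j + Pi.single i 1) - u (j - Pi.single i 1))

/-- the spectral measure of `u` (the finite measure `m` with
`⟨u, e^{-itΔ_ω} u⟩ = ∫ e^{-itE} dm(E)`) is absolutely continuous: `u` is in the absolutely
continuous subspace -/
def IsAC {d : ℕ} (U : ℝ → L2 d → L2 d) (u : L2 d) : Prop :=
  ∃ m : Measure ℝ, IsFiniteMeasure m ∧ m ≪ volume ∧
    ∀ t : ℝ, ⟪u, U t u⟫_ℂ = ∫ E : ℝ, Complex.exp (-(Complex.I * t * E)) ∂m

/-- the law of iid variables with law `μ` on `ℤ^d` -/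
noncomputable def iid (d : ℕ) (μ : Measure ℝ) : Measure ((Fin d → ℤ) → ℝ) :=
  Measure.infinitePi fun _ => μ

/-- the time average over `[0,T]` of the velocity at time `s`, `U_{-s} v U_s`, applied to `u` -/
noncomputable def average {d : ℕ} (U : ℝ → L2 d → L2 d) (v : L2 d → L2 d) (T : ℝ)
    (u : L2 d) : L2 d :=
  ((T : ℂ)⁻¹) • ∫ s in (0 : ℝ)..T, U (-s) (v (U s u))

/-- the mean square of the averaged velocity in the states `ψ(ω)`, `ω_j` iid with law `μ` -/
noncomputable def meanSquare {d : ℕ} (μ : Measure ℝ)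
    (U : ((Fin d → ℤ) → ℝ) → ℝ → L2 d → L2 d) (v : L2 d → L2 d)
    (ψ : ((Fin d → ℤ) → ℝ) → L2 d) (T : ℝ) : ℝ≥0∞ :=
  ∫⁻ ω, ‖average (U ω) v T (ψ ω)‖ₑ ^ 2 ∂(iid d μ)

/-- `ψ(ω)` is a measurable choice of a vector of norm at most one which is almost surely in the
absolutely continuous subspace of `Δ_ω` -/
structure ACChoice {d : ℕ} (μ : Measure ℝ) (U : ((Fin d → ℤ) → ℝ) → ℝ → L2 d → L2 d)
    (ψ : ((Fin d → ℤ) → ℝ) → L2 d) : Prop where
  meas : AEStronglyMeasurable ψ (iid d μ)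
  norm_le : ∀ ω, ‖ψ ω‖ ≤ 1
  ac : ∀ᵐ ω ∂(iid d μ), IsAC (U ω) (ψ ω)

open Pool.Agent.H5R2.NB Pool.Agent.H5R2.NBA

theorem sol_of_prop {d : ℕ} {ω : (Fin d → ℤ) → ℝ} {U : ℝ → L2 d → L2 d}
    (hU : IsPropagator ω U) (u : L2 d) :
    IsSol (-1) (fun x => 2 * d + ω x) (fun t => U t u) (fun _ => 0) := by
  refine ⟨fun T => ⟨‖u‖, fun t _ => (hU.norm t u).le⟩, fun t x => ?_⟩
  have h := hU.schrodinger u t x
  have e := FIN.hop_eq ω (fun k => (U t u) k) x
  have e2 : -Complex.I * (hopf (-1) (fun y => (U t u) y) x +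
      (((fun x => 2 * d + ω x) x : ℝ) : ℂ) * (U t u) x) + ((0 : L2 d) : (Fin d → ℤ) → ℂ) x =
      -Complex.I * H ω (fun k => (U t u) k) x := by
    have e3 : H ω (fun k => (U t u) k) x = -(∑ i : Fin d,
        (((U t u) (x + Pi.single i 1) - (U t u) x) + ((U t u) (x - Pi.single i 1) - (U t u) x))) +
        (ω x : ℂ) * (U t u) x := rfl
    rw [e3, ← e]
    simp
  rw [e2]
  exact h

theorem prop_of_grp {d : ℕ} {ω : (Fin d → ℤ) → ℝ} {W : UG (Pool.Agent.H5R2.NB.L2 (Site d))}
    (hW : IsGrp (-1) (fun x => 2 * d + ω x) W) : IsPropagator ω (fun t u => W.U t u) := by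
  refine ⟨W.zero', W.norm', fun u t x => ?_⟩
  have h := (hW u).2 t x
  have e := FIN.hop_eq ω (fun k => (W.U t u) k) x
  have e3 : H ω (fun k => (W.U t u) k) x = -(∑ i : Fin d,
        (((W.U t u) (x + Pi.single i 1) - (W.U t u) x) +
          ((W.U t u) (x - Pi.single i 1) - (W.U t u) x))) + (ω x : ℂ) * (W.U t u) x := rfl
  rw [e3, ← e]
  simpa using h

theorem prop_eq {d : ℕ} {ω : (Fin d → ℤ) → ℝ} {W : UG (Pool.Agent.H5R2.NB.L2 (Site d))}
    (hW : IsGrp (-1) (fun x => 2 * d + ω x) W) {U : ℝ → L2 d → L2 d}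
    (hU : IsPropagator ω U) (t : ℝ) (u : L2 d) : U t u = W.U t u := by
  have h := Pool.Agent.H5R2.NB.ALL.a_UN d (-1) _ W hW (fun t => U t u) (fun _ => 0)
    continuous_const (sol_of_prop hU u) t
  simpa [hU.zero u] using h

/-- For every law `μ` which is not a point mass: for every potential the unitary group exists and is
unique, and for every measurable choice of a vector `ψ(ω)`, `‖ψ(ω)‖ ≤ 1`, in the absolutely
continuous subspace of `Δ_ω`, the time average over `[0,T]` of the velocity applied to `ψ(ω)` tends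
to zero in mean square as `T → ∞`. -/
theorem result (d : ℕ) (μ : Measure ℝ) [IsProbabilityMeasure μ] (hμ : ∀ r : ℝ, μ {r} ≠ 1) :
    (∀ ω : (Fin d → ℤ) → ℝ, ∃! U : ℝ → L2 d → L2 d, IsPropagator ω U) ∧
    ∀ U : ((Fin d → ℤ) → ℝ) → ℝ → L2 d → L2 d, (∀ ω, IsPropagator ω (U ω)) →
      ∀ i : Fin d, ∃ v : L2 d → L2 d, IsVelocity i v ∧
        ∀ ψ : ((Fin d → ℤ) → ℝ) → L2 d, ACChoice μ U ψ →
          Tendsto (meanSquare μ U v ψ) atTop (𝓝 0) := by
  refine ⟨fun ω => ?_, fun U hU i => ?_⟩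
  · obtain ⟨W, hW⟩ := Pool.Agent.H5R2.NB.ALL.a_EX d (-1) (fun x => 2 * d + ω x)
    refine ⟨fun t u => W.U t u, prop_of_grp hW, fun U hU => ?_⟩
    funext t u
    exact prop_eq hW hU t u
  · choose ev hev using fun V : Site d → ℝ => Pool.Agent.H5R2.NB.ALL.a_EX d (-1) V
    obtain ⟨v, hv⟩ := (t_OPS d).2.2 (-1) i
    refine ⟨v, fun u j => ?_, fun ψ ⟨hψ, hψ1, hac⟩ => ?_⟩
    · rw [hv u j]
      push_cast
      ring
    · set e : ((Fin d → ℤ) → ℝ) ≃ᵐ ((Fin d → ℤ) → ℝ) :=
        MeasurableEquiv.addLeft (fun _ : Fin d → ℤ => (2 * d : ℝ)) with he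
      have hei : ∀ ω, e ω = fun x => 2 * d + ω x := fun ω => rfl
      have hUe : ∀ ω t u, U ω t u = (ev (e ω)).U t u := fun ω t u =>
        prop_eq (by rw [hei]; exact hev _) (hU ω) t u
      have hg : Measurable (fun r : ℝ => 2 * (d : ℝ) + r) := by fun_prop
      have hpm : IsProbabilityMeasure (μ.map fun r : ℝ => 2 * (d : ℝ) + r) :=
        Measure.isProbabilityMeasure_map hg.aemeasurable
      have hmap : (iid d μ).map e = PP d (μ.map fun r : ℝ => 2 * (d : ℝ) + r) := by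
        unfold PP iid
        exact Measure.infinitePi_map_pi (μ := fun _ : Site d => μ) (fun _ => hg)
      have hne : ∀ κ : ℝ, (μ.map fun r : ℝ => 2 * (d : ℝ) + r) {κ} ≠ 1 := by
        intro κ
        rw [Measure.map_apply hg (measurableSet_singleton κ)]
        have : (fun r : ℝ => 2 * (d : ℝ) + r) ⁻¹' {κ} = {κ - 2 * d} := by
          ext r
          simp only [Set.mem_preimage, Set.mem_singleton_iff]
          constructor <;> intro h <;> linarith
        rw [this]
        exact hμ _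
      have key := Pool.Agent.H5R2.NBA.ALL.a_FIN d (-1) ev hev
        (μ.map fun r : ℝ => 2 * (d : ℝ) + r) hne i v hv (fun V => ψ (e.symm V)) 1
        (by
          rw [← hmap]
          have : AEStronglyMeasurable (ψ ∘ e.symm) ((iid d μ).map e) := by
            refine AEStronglyMeasurable.comp_aemeasurable ?_ e.symm.measurable.aemeasurable
            rw [Measure.map_map e.symm.measurable e.measurable]
            simpa using hψ
          exact this)
        (fun V => hψ1 _)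
        (by
          rw [← hmap, e.measurableEmbedding.ae_map_iff]
          filter_upwards [hac] with ω hω
          rw [e.symm_apply_apply]
          refine Pool.Agent.H5R2.NBA.ALL.a_SPEC _ _ _ ?_
          obtain ⟨m, h1, h2, h3⟩ := hω
          refine ⟨m, h1, h2, fun t => ?_⟩
          rw [← h3 t, hUe])
      refine key.congr fun T => ?_
      rw [← hmap, e.measurableEmbedding.lintegral_map]
      refine lintegral_congr fun ω => ?_
      rw [e.symm_apply_apply]
      unfold average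
      simp only [hUe]

end Pool.Agent.Results.MP_d0f69c_mp.ACStatesZeroVelocity
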