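import Pool.Agent.H12R2.And11

set_option autoImplicit false

open MeasureTheory

namespace Pool.Agent.Results.MP_d0f69c_mp.EdgeSparseAC

/-- The Hilbert space `ℓ²(ℤᵈ)`. -/
def L2 (d : ℕ) : Type := lp (fun _ : Fin d → ℤ => ℂ) 2

/-- The `ℓ²` norm. -/
noncomputable instance instNorm (d : ℕ) : NormedAddCommGroup (L2 d) :=
  @lp.normedAddCommGroup (Fin d → ℤ) (fun _ => ℂ) 2 _ _

/-- The `ℓ²` inner product. -/
noncomputable instance instInner (d : ℕ) : InnerProductSpace ℂ (L2 d) :=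
  @lp.instInnerProductSpace (Fin d → ℤ) ℂ _ (fun _ => ℂ) _ _

/-- The underlying function of a vector of `ℓ²(ℤᵈ)`. -/
def coord {d : ℕ} (u : L2 d) : (Fin d → ℤ) → ℂ := (show lp (fun _ : Fin d → ℤ => ℂ) 2 from u)

/-- Bounded linear operators on a complex inner product space. -/
abbrev Op (E : Type) [NormedAddCommGroup E] [InnerProductSpace ℂ E] : Type := E →L[ℂ] E

/-- `-(discrete Laplacian) + ω` on functions (`true` codes `+1`, `false` codes `-1`). -/
noncomputable def act {d : ℕ} (ω : (Fin d → ℤ) → Bool) (u : (Fin d → ℤ) → ℂ)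
    (j : Fin d → ℤ) : ℂ :=
  -(∑ i : Fin d, ((u (j + Pi.single i 1) - u j) + (u (j - Pi.single i 1) - u j)))
    + (if ω j then (1 : ℂ) else -1) * u j

/-- The bounded operator `H` on `ℓ²(ℤᵈ)` acts as `-(discrete Laplacian) + ω`. -/
def IsAnderson {d : ℕ} (ω : (Fin d → ℤ) → Bool) (H : Op (L2 d)) : Prop :=
  ∀ u : L2 d, coord (H u) = act ω (coord u)

/-- `(H - z)⁻¹` -/
noncomputable def res {E : Type} [NormedAddCommGroup E] [InnerProductSpace ℂ E] (H : Op E) (z : ℂ) :
    Op E :=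
  Ring.inverse (H - z • (1 : Op E))

/-- `μ` is the spectral measure of `ψ`: a finite measure with Borel transform
`⟨ψ, (H - z)⁻¹ ψ⟩` off the real line. -/
def IsSpectralMeasure {E : Type} [NormedAddCommGroup E] [InnerProductSpace ℂ E]
    (H : Op E) (ψ : E) (μ : Measure ℝ) : Prop :=
  IsFiniteMeasure μ ∧ ∀ z : ℂ, z.im ≠ 0 →
    ∫ x, ((x : ℂ) - z)⁻¹ ∂μ = inner ℂ ψ (res H z ψ)

/-- The law of a fair `±1` potential on `ℤᵈ`. -/
noncomputable def coin (d : ℕ) : Measure ((Fin d → ℤ) → Bool) :=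
  Measure.infinitePi (fun _ => (PMF.uniformOfFintype Bool).toMeasure)

/-- For every dimension `d ≥ 2` there is a (deterministic) measurable set `S` of energies that
fills both band edges `-1` and `4 d + 1` up to super-polynomially small measure, such that for
almost every fair `±1` potential the Bernoulli Anderson operator has no absolutely continuous
spectrum in `S`: the restriction to `S` of every spectral measure is singular. -/
theorem result (d : ℕ) (hd : 2 ≤ d) :
    ∃ S : Set ℝ, MeasurableSet S ∧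
      (∀ n : ℕ, ∃ η₀ : ℝ, 0 < η₀ ∧ ∀ η : ℝ, 0 < η → η < η₀ →
        volume (Set.Ioo (-1 : ℝ) (-1 + η) \ S) ≤ ENNReal.ofReal (η ^ n) ∧
        volume (Set.Ioo (4 * (d : ℝ) + 1 - η) (4 * (d : ℝ) + 1) \ S) ≤ ENNReal.ofReal (η ^ n)) ∧
      ∀ᵐ ω ∂(coin d), ∀ H : Op (L2 d), IsAnderson ω H →
        ∀ (ψ : L2 d) (μ : Measure ℝ), IsSpectralMeasure H ψ μ → (μ.restrict S) ⟂ₘ volume := by
  refine ⟨H12R2.And.SS d, H12R2.And.measurableSet_SS, fun n => H12R2.And.small_compl hd n, ?_⟩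
  have h := H12R2.And.main hd
  filter_upwards [h] with ω hω H hH ψ μ hμ
  exact hω H (fun u j => congrFun (hH u) j) ψ μ hμ.1 hμ.2

end Pool.Agent.Results.MP_d0f69c_mp.EdgeSparseAC
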