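import Pool.Agent.H4R2.HD.Fin
import Pool.Agent.H4R2.HD.PR
import Pool.Agent.H4R2.HD.DJ
import Pool.Agent.H4R2.HD.GD
import Pool.Agent.H4R2.HD.AS
import Pool.Agent.H4R2.HD.MT
import Pool.Agent.H4R2.HD.MC
import Pool.Agent.H4R2.HD.MR
import Pool.Agent.H4R2.HD.ME
import Pool.Agent.H4R2.HD.IN
import Pool.Agent.H4R2.HD.KB
import Pool.Agent.H4R2.HD.KS
import Pool.Agent.H4R2.HD.BA

/-!
# The Bernoulli Anderson model in high dimension

For the Bernoulli Anderson model `-Δ + ω` on `ℤ^d` (`ω` fair `±1`, spectrum `[-1, 4 d + 1]`), `d`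
large: no absolutely continuous spectrum outside `[-(1+ε)/(2d), 4d + (1+ε)/(2d)]`, up to a set of
energies of measure at most `exp(-d^m)`.
-/

set_option autoImplicit false

open MeasureTheory Filter

namespace Pool.Agent.Results.MP_d0f69c_mp.HighDimension

/-- The Hilbert space `ℓ²(ℤᵈ)`. -/
def L2 (d : ℕ) : Type := lp (fun _ : Fin d → ℤ => ℂ) 2

/-- The `ℓ²` norm. -/
noncomputable instance instNorm (d : ℕ) : NormedAddCommGroup (L2 d) :=
  @lp.normedAddCommGroup (Fin d → ℤ) (fun _ => ℂ) 2 _ _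

/-- The `ℓ²` inner product. -/
noncomputable instance instInner (d : ℕ) : InnerProductSpace ℂ (L2 d) :=
  @lp.instInnerProductSpace (Fin d → ℤ) ℂ _ (fun _ => ℂ) _ _

/-- The underlying function of a vector of `ℓ²(ℤᵈ)`. -/
def coord {d : ℕ} (u : L2 d) : (Fin d → ℤ) → ℂ := (show lp (fun _ : Fin d → ℤ => ℂ) 2 from u)

/-- Bounded linear operators on a complex inner product space. -/
abbrev Op (E : Type) [NormedAddCommGroup E] [InnerProductSpace ℂ E] : Type := E →L[ℂ] E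

/-- `-(discrete Laplacian) + ω` on functions (`true` codes `+1`, `false` codes `-1`). -/
noncomputable def act {d : ℕ} (ω : (Fin d → ℤ) → Bool) (u : (Fin d → ℤ) → ℂ)
    (j : Fin d → ℤ) : ℂ :=
  -(∑ i : Fin d, ((u (j + Pi.single i 1) - u j) + (u (j - Pi.single i 1) - u j)))
    + (if ω j then (1 : ℂ) else -1) * u j

/-- The bounded operator `H` on `ℓ²(ℤᵈ)` acts as `-(discrete Laplacian) + ω`. -/
def IsAnderson {d : ℕ} (ω : (Fin d → ℤ) → Bool) (H : Op (L2 d)) : Prop :=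
  ∀ u : L2 d, coord (H u) = act ω (coord u)

/-- `(H - z)⁻¹` -/
noncomputable def res {E : Type} [NormedAddCommGroup E] [InnerProductSpace ℂ E] (H : Op E) (z : ℂ) :
    Op E :=
  Ring.inverse (H - z • (1 : Op E))

/-- `μ` is the spectral measure of `ψ`: a finite measure with Borel transform
`⟨ψ, (H - z)⁻¹ ψ⟩` off the real line. -/
def IsSpectralMeasure {E : Type} [NormedAddCommGroup E] [InnerProductSpace ℂ E]
    (H : Op E) (ψ : E) (μ : Measure ℝ) : Prop :=
  IsFiniteMeasure μ ∧ ∀ z : ℂ, z.im ≠ 0 →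
    ∫ x, ((x : ℂ) - z)⁻¹ ∂μ = inner ℂ ψ (res H z ψ)

/-- The law of a fair `±1` potential on `ℤᵈ`. -/
noncomputable def coin (d : ℕ) : Measure ((Fin d → ℤ) → Bool) :=
  Measure.infinitePi (fun _ => (PMF.uniformOfFintype Bool).toMeasure)

open Pool.Agent.H4R2.HD in
/-- For all `ε > 0`, `m` and all large `d` there is a (deterministic) measurable set `S` of energies
which covers `(-1, -(1+ε)/(2d)) ∪ (4d + (1+ε)/(2d), 4d + 1)` up to Lebesgue measure `exp(-d^m)`,
such that for almost every fair `±1` potential the Bernoulli Anderson operator has no absolutely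
continuous spectrum in `S`: the restriction to `S` of every spectral measure is singular. -/
theorem result (ε : ℝ) (hε : 0 < ε) (m : ℕ) :
    ∃ d₀ : ℕ, ∀ d : ℕ, d₀ ≤ d → ∃ S : Set ℝ, MeasurableSet S ∧
      volume ((Set.Ioo (-1 : ℝ) (-((1 + ε) / (2 * d))) ∪
        Set.Ioo (4 * (d : ℝ) + (1 + ε) / (2 * d)) (4 * (d : ℝ) + 1)) \ S) ≤
          ENNReal.ofReal (Real.exp (-(d : ℝ) ^ m)) ∧
      ∀ᵐ ω ∂(coin d), ∀ H : Op (L2 d), IsAnderson ω H →
        ∀ (ψ : L2 d) (μ : Measure ℝ), IsSpectralMeasure H ψ μ → (μ.restrict S) ⟂ₘ volume := by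
  have hIN1 : S_IN1 := IN.IN1 BA.iter_add BA.iter_smul
  have hIN2 : S_IN2 := IN.IN2 BA.iter_add BA.iter_smul BA.iter_sum BA.iter_mono BA.iter_const
    BA.Gn_abs
  have hMT : S_MT := MT.MT MR.MR (MC.MC MR.MR)
  have hKS : S_KS := KS.KS BA.iter_sum BA.iter_mono BA.iter_const
  have hPR : S_PR := PR.PR hMT hIN1 hIN2 (ME.ME1 MR.MR) (ME.ME2 MR.MR) KB.KB hKS BA.iter_local
  have hmain := fin_main hPR (DJ.DJ BA.iter_local) (GD.GD BA.param BA.Gn_abs) AS.AS1 AS.AS2 AS.AS3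
    AS.AS4 AS.AS5 (min ε 1) (lt_min hε one_pos) (min_le_right _ _) m
  obtain ⟨d₀, hd₀⟩ := (hmain.and (eventually_ge_atTop 1)).exists_forall_of_atTop
  refine ⟨d₀, fun d hd => ?_⟩
  obtain ⟨⟨S, hS, -, hvol, hae⟩, hd1⟩ := hd₀ d hd
  have hd' : (1 : ℝ) ≤ d := by exact_mod_cast hd1
  refine ⟨S, hS, ?_, ?_⟩
  · refine (measure_mono (Set.sdiff_subset_sdiff_left ?_)).trans hvol
    have h6 : (1 + min ε 1) / (2 * (d : ℝ)) ≤ (1 + ε) / (2 * d) := by
      have : min ε 1 ≤ ε := min_le_left _ _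
      gcongr
    unfold BB
    refine Set.union_subset_union (Set.Ioo_subset_Ioo_right ?_) (Set.Ioo_subset_Ioo_left ?_)
    · rw [neg_div]; linarith
    · linarith
  · filter_upwards [hae] with ω hω H hH ψ μ hμ
    exact hω H (fun u j => congrFun (hH u) j) ψ μ hμ.1 hμ.2

end Pool.Agent.Results.MP_d0f69c_mp.HighDimension
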